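import Pool.Agent.Helper50.VF.Def
import Pool.Agent.Helper46.AQ.PLB

/-!
# Package C: the atlas for the invariants which are constants of a derivation

Adapted from `Pool/Agent/Helper46/AQ/PLB.lean`.
-/

set_option autoImplicit false
set_option linter.unusedSectionVars false
set_option linter.unusedVariables false

namespace Pool.Agent.Helper82.VF

open Finset Pool.Agent.W559.Mg Pool.Agent.Helper46.AQ Pool.Agent.Helper49.SP Pool.Agent.Helper50.VF
  Pointwise

lemma der_pow {k K : Type} [Field k] [Field K] [Algebra k K] (p : ℕ) [CharP K p]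
    (δ : Derivation k K K) (x : K) : δ (x ^ p) = 0 := by
  rw [Derivation.leibniz_pow, nsmul_eq_mul, CharP.cast_eq_zero, zero_mul]

lemma der_inv {k K : Type} [Field k] [Field K] [Algebra k K]
    (δ : Derivation k K K) (x : K) (h : δ x = 0) : δ x⁻¹ = 0 := by
  rw [Derivation.leibniz_inv, h, smul_zero]

lemma der_mul {k K : Type} [Field k] [Field K] [Algebra k K]
    (δ : Derivation k K K) (x y : K) (hx : δ x = 0) (hy : δ y = 0) : δ (x * y) = 0 := by
  rw [Derivation.leibniz, hx, hy, smul_zero, smul_zero, add_zero]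

lemma gr_Fd {k K : Type} [Field k] [Field K] [Algebra k K] (δ : Derivation k K K) (L : Type)
    [AddCommGroup L] : Gr (Fd δ L) := fun f hf d => (mo_mem_Fd δ).2 (hf d)

/-- The atlas for the invariants of the group which are constants of the derivation. -/
theorem paD {k K : Type} [Field k] [Field K] [Algebra k K] {G : Type} [Group G] [Finite G]
    {ι : Type} [Fintype ι] [DecidableEq ι] {ρ : G →* (K ≃ₐ[k] K)} {B : Subalgebra k K}
    {A B' : ι → Finset K} {L : Type} [AddCommGroup L] (dg : L ≃+ (ι → ℤ)) (hPC : PC ρ B A B')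
    (p : ℕ) [Fact p.Prime] [CharP K p] (δ : Derivation k K K)
    {Aa : Type} [CommRing Aa] [IsDomain Aa] [Algebra k Aa]
    (g : Aa →ₐ[k] K) (hg : ∀ x, (∃ a, g a = x) ↔ x ∈ B ∧ (∀ γ, ρ γ x = x) ∧ δ x = 0)
    (hic : ∀ x : K, IsIntegral B x → x ∈ B) (hst : ∀ γ, ∀ b ∈ B, ρ γ b ∈ B)
    (hδ : ∀ b ∈ B, δ b ∈ B) :
    PA g (Fx ρ L ⊓ Fd δ L) (p * EE A B') (CC dg hPC) (fun D : Tp A B' => HH D ^ p) := by
  have hp : 1 ≤ p := (Fact.out : p.Prime).one_lt.le
  exact
  { H0 := fun D => pow_ne_zero _ (HH_ne D)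
    hA := fun D => by
      obtain ⟨a, ha⟩ := (hg (HH D ^ p)).2 ⟨B.pow_mem (hPC.HH_mem D) p,
        fun γ => by rw [map_pow, hPC.HH_inv D], der_pow p δ _⟩
      exact ⟨a, ha.symm⟩
    gr := fun D => gr_inf (gr_CC hPC D)
      (gr_inf (fun f hf d => mo_mem_Fx.2 fun γ => hf γ d) (gr_Fd δ L))
    aa := fun D a => by
      have h1 := (hg (g a)).1 ⟨a, rfl⟩
      refine ⟨(mo_mem_CC hPC).2 ?_, mo_mem_Fx.2 h1.2.1, (mo_mem_Fd δ).2 h1.2.2⟩
      intro Γ _ v hv
      rw [map_zero, nm_zero]
      exact hv.1 _ h1.1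
    Fi := fun m a _ h => by
      have h1 := mo_mem_Fx.1 h.1
      have h2 := (mo_mem_Fd δ).1 h.2
      exact ⟨mo_mem_Fx.2 fun γ => by rw [map_inv₀, h1], (mo_mem_Fd δ).2 (der_inv δ a h2)⟩
    rt := fun D D' => by
      have e1 : HH D' ^ p / HH D ^ p = (HH D' / HH D) ^ p := (div_pow _ _ _).symm
      refine ⟨(mo_mem_CC hPC).2 ?_, mo_mem_Fx.2 ?_, (mo_mem_Fd δ).2 ?_⟩
      · intro Γ _ v hv
        rw [map_zero, nm_zero, e1, map_pow]
        exact pow_le_one' (hv.RD_le _ (div_mem_RD D D')) p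
      · intro γ
        rw [map_div₀, map_pow, map_pow, hPC.HH_inv, hPC.HH_inv]
      · rw [e1]
        exact der_pow p δ _
    gl := fun D D' f hf => by
      obtain ⟨n, hn⟩ := gl_full hPC D D' f hf.1
      refine ⟨n, ?_⟩
      have hx : mo 0 (HH D' / HH D) ∈ CC dg hPC D := by
        rw [mo_mem_CC]
        intro Γ _ v hv
        rw [map_zero, nm_zero]
        exact hv.RD_le _ (div_mem_RD D D')
      have e1 : (mo 0 (HH D' ^ p / HH D ^ p) : ML K L) ^ n * f =
          mo 0 (HH D' / HH D) ^ ((p - 1) * n) * (mo 0 (HH D' / HH D) ^ n * f) := by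
        have e2 : (mo 0 (HH D' ^ p / HH D ^ p) : ML K L) = mo 0 (HH D' / HH D) ^ p := by
          rw [mo_pow, smul_zero, div_pow]
        rw [e2, ← pow_mul, ← mul_assoc, ← pow_add]
        congr 2
        obtain ⟨q, rfl⟩ := Nat.exists_eq_add_of_le hp
        rw [Nat.add_sub_cancel_left]
        ring
      rw [e1]
      exact (CC dg hPC D).mul_mem ((CC dg hPC D).pow_mem hx _) hn
    dn := fun D x hx => by
      have h1 : IsIntegral (RD B D) x := by
        refine integral_RD hPC fun Γ _ v hv => ?_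
        have h2 := (mo_mem_CC hPC).1 hx.1 Γ v hv
        rwa [map_zero, nm_zero] at h2
      have hle : RD B D ≤ lc B (HH D) (hPC.HH_mem D) := by
        refine RD_le (le_lc _ _ _) fun D'' => ⟨1, ?_⟩
        rw [pow_one, mul_div_cancel₀ _ (HH_ne D)]
        exact hPC.HH_mem D''
      obtain ⟨n, hn⟩ := exists_pow_integral (RD B D) B (HH D) (HH_ne D) (hPC.HH_mem D)
        (fun r hr => hle hr) _ h1
      have hB : (HH D ^ p) ^ n * x ∈ B := by
        have e1 : (HH D ^ p) ^ n * x = HH D ^ ((p - 1) * n) * (HH D ^ n * x) := by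
          rw [← pow_mul, ← mul_assoc, ← pow_add]
          congr 2
          obtain ⟨q, rfl⟩ := Nat.exists_eq_add_of_le hp
          rw [Nat.add_sub_cancel_left]
          ring
        rw [e1]
        exact B.mul_mem (B.pow_mem (hPC.HH_mem D) _) (hic _ hn)
      have hδx : δ x = 0 := (mo_mem_Fd δ).1 hx.2.2
      have hδH : δ ((HH D ^ p) ^ n) = 0 := by
        rw [← pow_mul, mul_comm, pow_mul]
        exact der_pow p δ _
      obtain ⟨a, ha⟩ := (hg ((HH D ^ p) ^ n * x)).2 ⟨hB, fun γ => by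
        rw [map_mul, map_pow, map_pow, hPC.HH_inv, mo_mem_Fx.1 hx.2.1],
        der_mul δ _ _ hδH hδx⟩
      exact ⟨n, a, ha.symm⟩
    cv := fun V hV => by
      have hpos : Pos B V.valuation := by
        refine pos_of_inv hst fun b hb hinv => ?_
        obtain ⟨a, ha⟩ := (hg (b ^ p)).2 ⟨B.pow_mem hb p, fun γ => by rw [map_pow, hinv],
          der_pow p δ b⟩
        have h1 : V.valuation (b ^ p) ≤ 1 := by
          rw [← ha]
          exact (V.valuation_le_one_iff _).2 (hV a)
        rw [map_pow] at h1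
        exact (pow_le_one_iff (by omega)).1 h1
      obtain ⟨D, hD⟩ := hPC.exists_chart V.valuation
      have hne := hPC.al_ne V.valuation
      refine ⟨D, 1, fun m => nm A B' V.valuation (dg m), one_pos, fun m => nm_ne_zero hne _,
        fun m m' => ?_, fun f hf m => ?_⟩
      · change nm A B' V.valuation (dg (m + m')) = _
        rw [map_add, nm_add hne]
      · rw [pow_one]
        exact hf _ V.valuation ⟨hpos, hD⟩ m
    E0 := Nat.mul_pos (by omega) EE_pos
    un := fun D m => by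
      refine ⟨uu D (dg m) ^ p, pow_ne_zero _ (uu_ne _ _), ⟨(mo_mem_CC hPC).2 ?_, ?_, ?_⟩,
        ⟨(mo_mem_CC hPC).2 ?_, ?_, ?_⟩⟩
      · intro Γ _ v hv
        rw [map_pow, hv.uu_eq, map_nsmul, nm_nsmul, ← pow_mul, mul_comm p]
      · exact mo_mem_Fx.2 fun γ => by rw [map_pow, hPC.uu_inv D _ γ]
      · exact (mo_mem_Fd δ).2 (der_pow p δ _)
      · intro Γ _ v hv
        rw [map_inv₀, map_pow, hv.uu_eq, map_neg, map_nsmul, nm_neg, nm_nsmul, ← pow_mul,
          mul_comm p]
      · exact mo_mem_Fx.2 fun γ => by rw [map_inv₀, map_pow, hPC.uu_inv D _ γ]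
      · exact (mo_mem_Fd δ).2 (der_inv δ _ (der_pow p δ _))
    gen := fun D => by
      rw [eq_top_iff]
      intro x _
      have h1 : ∀ i, dg.symm (-Pi.single i 1) ∈ AddSubgroup.closure
          {m : L | ∃ a : K, a ≠ 0 ∧ mo m a ∈ CC dg hPC D ⊓ (Fx ρ L ⊓ Fd δ L)} := by
        intro i
        refine AddSubgroup.subset_closure ⟨1, one_ne_zero, (mo_mem_CC hPC).2 ?_,
          mo_mem_Fx.2 fun γ => map_one _, (mo_mem_Fd δ).2 δ.map_one_eq_zero⟩
        intro Γ _ v hv
        rw [AddEquiv.apply_symm_apply, nm_neg, nm_single, map_one, zpow_one]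
        exact one_le_inv₀ (zero_lt_iff.2 (hPC.al_ne v i)) |>.2 (hPC.le1 Γ v hv.1 i)
      have h2 : x = ∑ i, (-(dg x i)) • dg.symm (-Pi.single i 1) := by
        apply dg.injective
        rw [map_sum]
        have h3 : ∀ i, dg ((-(dg x i)) • dg.symm (-Pi.single i 1)) = Pi.single i (dg x i) := by
          intro i
          rw [map_zsmul, AddEquiv.apply_symm_apply]
          funext j
          by_cases hj : j = i
          · subst hj
            simp
          · simp [hj]
        rw [Finset.sum_congr rfl fun i _ => h3 i]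
        exact (Finset.univ_sum_single _).symm
      rw [h2]
      exact AddSubgroup.sum_mem _ fun i _ => AddSubgroup.zsmul_mem _ (h1 i) _ }

end Pool.Agent.Helper82.VF
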